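import Pool.Agent.H79.MC.Targets2

/-!
Board mxc_modules, module HLF: a bipartition with half of the weight.
-/

set_option autoImplicit false

namespace Pool.Agent.H34.MC

open Pool.Agent.H79.MC

theorem pf_hlf : T_HLF := by
  classical
  intro n U a ha h0 hs
  induction U using Finset.induction_on with
  | empty => exact ⟨∅, by simp, by simp⟩
  | insert w U hw ih =>
    obtain ⟨B, hB, hle⟩ := ih
    set s₁ : ℝ := ∑ v ∈ U \ B, a w v with hs₁
    set s₂ : ℝ := ∑ u ∈ B, a w u with hs₂
    have hd : ∑ v ∈ U, a w v = s₁ + s₂ := by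
      rw [hs₁, hs₂]
      exact (Finset.sum_sdiff hB).symm
    have hwB : w ∉ B := fun h => hw (hB h)
    have htot : ∑ u ∈ insert w U, ∑ v ∈ insert w U, a u v =
        (∑ u ∈ U, ∑ v ∈ U, a u v) + 2 * (s₁ + s₂) := by
      rw [Finset.sum_insert hw, Finset.sum_insert hw, h0 w]
      have : ∑ u ∈ U, ∑ v ∈ insert w U, a u v = ∑ u ∈ U, a w u + ∑ u ∈ U, ∑ v ∈ U, a u v := by
        rw [← Finset.sum_add_distrib]
        apply Finset.sum_congr rfl
        intro u _
        rw [Finset.sum_insert hw, hs u w]
      rw [this, hd]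
      ring
    rcases le_total s₂ s₁ with h12 | h12
    · refine ⟨insert w B, Finset.insert_subset_insert w hB, ?_⟩
      have hsd : insert w U \ insert w B = U \ B := by
        ext v
        simp only [Finset.mem_sdiff, Finset.mem_insert, not_or]
        constructor
        · rintro ⟨h1 | h1, h2, h3⟩
          · exact absurd h1 h2
          · exact ⟨h1, h3⟩
        · rintro ⟨h1, h2⟩
          exact ⟨Or.inr h1, fun h => hw (h ▸ h1), h2⟩
      rw [htot, hsd, Finset.sum_insert hwB, ← hs₁]
      linarith
    · refine ⟨B, hB.trans (Finset.subset_insert w U), ?_⟩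
      have hsd : insert w U \ B = insert w (U \ B) := Finset.insert_sdiff_of_notMem U hwB
      have hnot : w ∉ U \ B := fun h => hw (Finset.mem_sdiff.1 h).1
      have : ∑ u ∈ B, ∑ v ∈ insert w U \ B, a u v = s₂ + ∑ u ∈ B, ∑ v ∈ U \ B, a u v := by
        rw [hs₂, ← Finset.sum_add_distrib, hsd]
        apply Finset.sum_congr rfl
        intro u _
        rw [Finset.sum_insert hnot, hs u w]
      rw [htot, this]
      linarith

end Pool.Agent.H34.MC
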