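import Pool.Agent.H79.MC.Targets2

/-!
Board mxc_modules, module MAR: martingale property of conditional means.
-/

set_option autoImplicit false

namespace Pool.Agent.H34.MC

open Pool.Agent.H79.MC

/-- the restriction of a point to the coordinates below `v` -/
def prj {n : ℕ} (v : Fin n) (x : Fin n → Bool) : Fin n → Bool := fun i => if i < v then x i else false

lemma prj_eq_iff {n : ℕ} (v : Fin n) (x y : Fin n → Bool) :
    prj v y = prj v x ↔ ∀ i : Fin n, i < v → y i = x i := by
  constructor
  · intro h i hi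
    have := congrFun h i
    simpa [prj, hi] using this
  · intro h
    funext i
    by_cases hi : i < v
    · simp [prj, hi, h i hi]
    · simp [prj, hi]

lemma fib_eq {n : ℕ} (F : Finset (Fin n → Bool)) (x : Fin n → Bool) (v : Fin n) :
    fib F x v = F.filter fun y => prj v y = prj v x := by
  classical
  ext y
  simp only [fib, Finset.mem_filter, prj_eq_iff]
  constructor
  · rintro ⟨h1, h2⟩
    exact ⟨h1, fun i hi => h2 i hi⟩
  · rintro ⟨h1, h2⟩
    exact ⟨h1, fun i hi => h2 i hi⟩

lemma abs_sb (b : Bool) : |sb b| = 1 := by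
  cases b <;> simp [sb]

lemma abs_cmean_le {n : ℕ} (F : Finset (Fin n → Bool)) (x : Fin n → Bool) (v : Fin n) :
    |cmean F x v| ≤ 1 := by
  unfold cmean
  rw [abs_div, Nat.abs_cast]
  apply div_le_one_of_le₀ _ (Nat.cast_nonneg _)
  refine (Finset.abs_sum_le_sum_abs _ _).trans ?_
  simp [abs_sb]

theorem pf_mar : T_MAR := by
  classical
  intro n F v h
  refine ⟨fun x _ => abs_cmean_le F x v, ?_⟩
  intro hh
  rw [← Finset.sum_fiberwise F (prj v)]
  apply Finset.sum_eq_zero
  intro k _
  rcases (F.filter fun y => prj v y = k).eq_empty_or_nonempty with he | ⟨x₀, hx₀⟩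
  · rw [he]; simp
  have hk : prj v x₀ = k := (Finset.mem_filter.1 hx₀).2
  set S := F.filter fun y => prj v y = k with hS
  have hfib : ∀ x ∈ S, fib F x v = S := by
    intro x hx
    rw [fib_eq, (Finset.mem_filter.1 hx).2]
  set M : ℝ := (∑ y ∈ S, sb (y v)) / S.card with hM
  have hterm : ∀ x ∈ S, h x * (sb (x v) - cmean F x v) = h x₀ * (sb (x v) - M) := by
    intro x hx
    have h1 : h x = h x₀ := by
      apply hh
      exact (prj_eq_iff v x₀ x).1 ((Finset.mem_filter.1 hx).2.trans hk.symm)
    have h2 : cmean F x v = M := by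
      unfold cmean
      rw [hfib x hx]
    rw [h1, h2]
  rw [Finset.sum_congr rfl hterm, ← Finset.mul_sum, Finset.sum_sub_distrib, Finset.sum_const,
    nsmul_eq_mul]
  have hc : (S.card : ℝ) ≠ 0 := by
    exact_mod_cast (Finset.card_pos.2 ⟨x₀, hx₀⟩).ne'
  rw [hM, mul_div_cancel₀ _ hc, sub_self, mul_zero]

end Pool.Agent.H34.MC
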